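import Pool.Agent.V1156.Cub.Gen

/-! Two polynomials whose quotient generates the rational function field, in homogeneous form. -/

set_option autoImplicit false

namespace Pool.Agent.V1156.Cub

open Polynomial IntermediateField

variable {K : Type*} [Field K]

theorem moebius {l₀ l₁ : K[X]} {b₀ b₁ : MvPolynomial (Fin 2) K} {N : ℕ}
    (hb₀ : b₀.IsHomogeneous N) (hb₁ : b₁.IsHomogeneous N)
    (h : MvPolynomial.aeval ![l₀, l₁] b₀ = X * MvPolynomial.aeval ![l₀, l₁] b₁)
    (h1 : MvPolynomial.aeval ![l₀, l₁] b₁ ≠ 0) :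
    ∃ (α β γ δ : K) (q : K[X]), q ≠ 0 ∧ C α * l₀ + C β * l₁ = X * q ∧ C γ * l₀ + C δ * l₁ = q := by
  have hl₁ : l₁ ≠ 0 := by
    rintro rfl
    have e : ∀ b : MvPolynomial (Fin 2) K, b.IsHomogeneous N → MvPolynomial.aeval ![l₀, (0 : K[X])] b =
        l₀ ^ N * C (MvPolynomial.aeval ![(1 : K), 0] b) := by
      intro b hb
      have e1 : (![l₀, 0] : Fin 2 → K[X]) = fun i => l₀ * (![1, 0] : Fin 2 → K[X]) i := by
        ext1 i
        fin_cases i <;> simp
      rw [e1, aeval_smul_hom hb]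
      congr 1
      have e2 : C (MvPolynomial.aeval ![(1 : K), 0] b) =
          (Algebra.ofId K K[X]) (MvPolynomial.aeval ![(1 : K), 0] b) := rfl
      rw [e2, MvPolynomial.comp_aeval_apply]
      congr 2
      ext1 i
      fin_cases i <;> simp
    rw [e b₁ hb₁] at h1
    rw [e b₀ hb₀, e b₁ hb₁] at h
    have hl : l₀ ^ N ≠ 0 := left_ne_zero_of_mul h1
    have hc : C (MvPolynomial.aeval ![(1 : K), 0] b₁) ≠ 0 := right_ne_zero_of_mul h1
    have h3 : C (MvPolynomial.aeval ![(1 : K), 0] b₀) = X * C (MvPolynomial.aeval ![(1 : K), 0] b₁) := by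
      apply mul_left_cancel₀ hl
      rw [h]; ring
    have h4 := congrArg (fun p => p.coeff 1) h3
    simp only [coeff_C_succ, coeff_X_mul, coeff_C_zero] at h4
    rw [← h4, C_0] at hc
    exact hc rfl
  set L := RatFunc K
  let φ : K[X] →ₐ[K] L := IsScalarTower.toAlgHom K K[X] L
  have hφ : Function.Injective φ := RatFunc.algebraMap_injective K
  have hφl₁ : φ l₁ ≠ 0 := fun h => hl₁ (hφ (by rw [h, map_zero]))
  set ρ : L := φ l₀ / φ l₁ with hρ
  have e : ∀ b : MvPolynomial (Fin 2) K, b.IsHomogeneous N → φ (MvPolynomial.aeval ![l₀, l₁] b) =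
      φ l₁ ^ N * MvPolynomial.aeval ![ρ, 1] b := by
    intro b hb
    rw [MvPolynomial.comp_aeval_apply, ← aeval_smul_hom hb]
    congr 2
    ext1 i
    fin_cases i
    · simp [hρ, mul_div_cancel₀ _ hφl₁]
    · simp
  have hN : φ l₁ ^ N ≠ 0 := pow_ne_zero _ hφl₁
  have h3 : MvPolynomial.aeval ![ρ, 1] b₁ ≠ 0 := by
    intro h4
    apply h1
    apply hφ
    rw [e b₁ hb₁, h4, mul_zero, map_zero]
  have h4 : MvPolynomial.aeval ![ρ, 1] b₀ = RatFunc.X * MvPolynomial.aeval ![ρ, 1] b₁ := by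
    have := congrArg φ h
    rw [map_mul, e b₀ hb₀, e b₁ hb₁] at this
    have hX : φ X = RatFunc.X := RatFunc.algebraMap_X
    rw [hX] at this
    apply mul_left_cancel₀ hN
    rw [this]; ring
  have hmem : ∀ b : MvPolynomial (Fin 2) K, MvPolynomial.aeval ![ρ, 1] b ∈ K⟮ρ⟯ := by
    intro b
    have : MvPolynomial.aeval ![ρ, 1] b = ((MvPolynomial.aeval ![⟨ρ, mem_adjoin_simple_self K ρ⟩, 1] b : K⟮ρ⟯) : L) := by
      have e2 : ((MvPolynomial.aeval ![⟨ρ, mem_adjoin_simple_self K ρ⟩, 1] b : K⟮ρ⟯) : L) =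
        K⟮ρ⟯.val (MvPolynomial.aeval ![⟨ρ, mem_adjoin_simple_self K ρ⟩, 1] b : K⟮ρ⟯) := rfl
      rw [e2, MvPolynomial.comp_aeval_apply]
      congr 2
      ext1 i
      fin_cases i <;> simp
    rw [this]
    exact SetLike.coe_mem _
  have htop : K⟮ρ⟯ = ⊤ := by
    rw [eq_top_iff, ← RatFunc.adjoin_X (K := K), adjoin_simple_le_iff]
    have : (RatFunc.X : L) = MvPolynomial.aeval ![ρ, 1] b₀ / MvPolynomial.aeval ![ρ, 1] b₁ := by
      rw [h4, mul_div_cancel_right₀ _ h3]
    rw [this]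
    exact div_mem (hmem _) (hmem _)
  have hfr := RatFunc.finrank_eq_max_natDegree ρ
  rw [htop, IntermediateField.finrank_top] at hfr
  have hcop : IsCoprime ρ.num ρ.denom := RatFunc.isCoprime_num_denom ρ
  have hrel : l₀ * ρ.denom = ρ.num * l₁ := by
    apply hφ
    rw [map_mul, map_mul]
    have hd : φ ρ.denom ≠ 0 := fun h => ρ.denom_ne_zero (hφ (by rw [h, map_zero]))
    have h5 : φ ρ.num / φ ρ.denom = φ l₀ / φ l₁ := RatFunc.num_div_denom ρ
    rw [div_eq_div_iff hd hφl₁] at h5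
    rw [h5]
  have hNd : ρ.num.natDegree ≤ 1 := by rw [hfr]; exact le_max_left _ _
  have hDd : ρ.denom.natDegree ≤ 1 := by rw [hfr]; exact le_max_right _ _
  obtain ⟨a, b, hab⟩ := exists_eq_X_add_C_of_natDegree_le_one hNd
  obtain ⟨c, d, hcd⟩ := exists_eq_X_add_C_of_natDegree_le_one hDd
  have hdet : a * d - b * c ≠ 0 := by
    intro hdet
    obtain ⟨u, v, huv⟩ := hcop
    by_cases ha : a = 0
    · by_cases hc : c = 0
      · rw [hab, hcd, ha, hc] at hfr
        simp at hfr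
      · have hb : b = 0 := by
          rw [ha, zero_mul, zero_sub, neg_eq_zero] at hdet
          exact (mul_eq_zero.1 hdet).resolve_right hc
        rw [hab, hcd, ha, hb] at huv
        have := congrArg (Polynomial.eval (-d / c)) huv
        simp [mul_div_cancel₀ _ hc] at this
    · rw [hab, hcd] at huv
      have := congrArg (Polynomial.eval (-b / a)) huv
      simp only [eval_add, eval_mul, eval_C, eval_X, eval_one] at this
      have e1 : a * (-b / a) + b = 0 := by field_simp; ring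
      have e2 : c * (-b / a) + d = 0 := by field_simp; linear_combination hdet
      rw [e1, e2] at this
      simp at this
  obtain ⟨h, hh⟩ : ρ.denom ∣ l₁ := by
    apply hcop.symm.dvd_of_dvd_mul_left
    exact ⟨l₀, by rw [← hrel, mul_comm]⟩
  have hl₀ : l₀ = ρ.num * h := by
    apply mul_right_cancel₀ ρ.denom_ne_zero
    rw [hrel, hh]; ring
  have hh0 : h ≠ 0 := by
    rintro rfl
    rw [mul_zero] at hh
    exact hl₁ hh
  refine ⟨d, -b, -c, a, C (a * d - b * c) * h, mul_ne_zero (C_ne_zero.2 hdet) hh0, ?_, ?_⟩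
  · rw [hl₀, hh, hab, hcd]
    simp only [map_sub, map_mul, map_neg]
    ring
  · rw [hl₀, hh, hab, hcd]
    simp only [map_sub, map_mul, map_neg]
    ring

end Pool.Agent.V1156.Cub
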