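import Mathlib

/-! The sextic curve `(n ^ 4 + n, 2 n ^ 6 + 3 n ^ 3)`: its equation generates the ideal of all
forms vanishing on it. -/

set_option autoImplicit false

namespace Pool.Agent.V1156.Cub

open Polynomial IntermediateField

section field

variable {K : Type*} [Field K]

/-- the polynomial `n ^ 4 + n` -/
noncomputable def xp (K : Type*) [Field K] : K[X] := X ^ 4 + X

/-- the polynomial `2 n ^ 6 + 3 n ^ 3` -/
noncomputable def yp (K : Type*) [Field K] : K[X] := 2 * X ^ 6 + 3 * X ^ 3

theorem natDegree_yp (h2 : (2 : K) ≠ 0) : (yp K).natDegree = 6 := by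
  have : yp K = C 2 * X ^ 6 + C 3 * X ^ 3 := rfl
  rw [this]
  compute_degree!

/-- `x` in the rational function field -/
noncomputable def xr (K : Type*) [Field K] : RatFunc K := algebraMap K[X] (RatFunc K) (xp K)

/-- `y` in the rational function field -/
noncomputable def yr (K : Type*) [Field K] : RatFunc K := algebraMap K[X] (RatFunc K) (yp K)

theorem xr_eq : xr K = RatFunc.X ^ 4 + RatFunc.X := by
  simp [xr, xp]

theorem yr_eq : yr K = 2 * RatFunc.X ^ 6 + 3 * RatFunc.X ^ 3 := by
  simp only [yr, yp, map_add, map_mul, map_pow, RatFunc.algebraMap_X, map_ofNat]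

theorem finrank_yr (h2 : (2 : K) ≠ 0) : Module.finrank K⟮yr K⟯ (RatFunc K) = 6 := by
  rw [RatFunc.finrank_eq_max_natDegree, yr, RatFunc.num_algebraMap, RatFunc.denom_algebraMap,
    natDegree_yp h2, natDegree_one]
  rfl

theorem yr_transcendental (h2 : (2 : K) ≠ 0) : Transcendental K (yr K) := by
  apply RatFunc.transcendental_of_ne_C
  rintro ⟨c, hc⟩
  have h := finrank_yr h2
  rw [RatFunc.finrank_eq_max_natDegree, hc] at h
  simp at h

theorem minpoly_degree (h2 : (2 : K) ≠ 0) {c : K} (hc : c ≠ 0) {P : (K⟮yr K⟯)[X]}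
    (hP : P.natDegree < 6) (h0 : aeval (algebraMap K (RatFunc K) c * xr K) P = 0) : P = 0 := by
  by_contra hne
  set L := RatFunc K
  set F := K⟮yr K⟯ with hF
  set z : L := algebraMap K L c * xr K with hz
  have hfr : Module.finrank F L = 6 := finrank_yr h2
  have : FiniteDimensional F L := Module.finite_of_finrank_pos (by rw [hfr]; norm_num)
  have hint : IsIntegral F z := Algebra.IsIntegral.isIntegral z
  have htop : F⟮z⟯ = ⊤ := by
    rw [eq_top_iff, ← RatFunc.IntermediateField.adjoin_X (E := F), adjoin_simple_le_iff]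
    have hzm : z ∈ F⟮z⟯ := mem_adjoin_simple_self F z
    have hyF : yr K ∈ F := mem_adjoin_simple_self K (yr K)
    have hym : yr K ∈ F⟮z⟯ := by
      have := F⟮z⟯.algebraMap_mem ⟨yr K, hyF⟩
      exact this
    have hkm : ∀ k : K, algebraMap K L k ∈ F⟮z⟯ := by
      intro k
      have := F⟮z⟯.algebraMap_mem (algebraMap K F k)
      exact this
    have hxm : xr K ∈ F⟮z⟯ := by
      have : xr K = algebraMap K L c⁻¹ * z := by
        rw [hz, ← mul_assoc, ← map_mul, inv_mul_cancel₀ hc, map_one, one_mul]
      rw [this]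
      exact mul_mem (hkm _) hzm
    have h1m : (1 : L) ∈ F⟮z⟯ := one_mem _
    have hg : (2 * yr K + 1) * (yr K + 1) - 8 * xr K ^ 3 ∈ F⟮z⟯ := by
      have h2m : (2 : L) ∈ F⟮z⟯ := by
        have := hkm 2
        rwa [map_ofNat] at this
      have h8m : (8 : L) ∈ F⟮z⟯ := by
        have := hkm 8
        rwa [map_ofNat] at this
      exact sub_mem (mul_mem (add_mem (mul_mem h2m hym) h1m) (add_mem hym h1m))
        (mul_mem h8m (pow_mem hxm 3))
    have hgeq : (2 * yr K + 1) * (yr K + 1) - 8 * xr K ^ 3 = RatFunc.X ^ 3 + 1 := by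
      rw [xr_eq, yr_eq]; ring
    rw [hgeq] at hg
    have hne1 : (RatFunc.X ^ 3 + 1 : L) ≠ 0 := by
      have : (RatFunc.X ^ 3 + 1 : L) = algebraMap K[X] L (X ^ 3 + 1) := by simp [L]
      rw [this]
      intro h
      have h3 : (X ^ 3 + 1 : K[X]) = 0 :=
        (map_eq_zero_iff _ (RatFunc.algebraMap_injective K)).1 h
      have : (X ^ 3 + 1 : K[X]).natDegree = 3 := by compute_degree!
      rw [h3] at this
      simp at this
    have : (RatFunc.X : L) = xr K / (RatFunc.X ^ 3 + 1) := by
      rw [eq_div_iff hne1, xr_eq]; ring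
    rw [this]
    exact div_mem hxm hg
  have hdeg : (minpoly F z).natDegree = 6 := by
    rw [← adjoin.finrank hint, htop, finrank_top', hfr]
  have h1 := minpoly.degree_le_of_ne_zero F z hne h0
  have h3 := natDegree_le_natDegree h1
  omega

end field

section mv

variable {K : Type*} [Field K]

/-- the equation of the sextic -/
noncomputable def sextic (K : Type*) [Field K] : MvPolynomial (Fin 3) K :=
  16 * MvPolynomial.X 0 ^ 6
    - (8 * MvPolynomial.X 1 ^ 2 + 12 * MvPolynomial.X 1 * MvPolynomial.X 2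
        + 3 * MvPolynomial.X 2 ^ 2) * MvPolynomial.X 2 * MvPolynomial.X 0 ^ 3
    + MvPolynomial.X 1 * (MvPolynomial.X 1 + MvPolynomial.X 2) ^ 3 * MvPolynomial.X 2 ^ 2

/-- the parametrization of the sextic by binary forms of degree six -/
noncomputable def par (K : Type*) [Field K] : Fin 3 → MvPolynomial (Fin 2) K :=
  ![MvPolynomial.X 0 ^ 4 * MvPolynomial.X 1 ^ 2 + MvPolynomial.X 0 * MvPolynomial.X 1 ^ 5,
    2 * MvPolynomial.X 0 ^ 6 + 3 * MvPolynomial.X 0 ^ 3 * MvPolynomial.X 1 ^ 3,
    MvPolynomial.X 1 ^ 6]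

theorem aeval_par_sextic : MvPolynomial.aeval (par K) (sextic K) = 0 := by
  simp only [sextic, map_add, map_sub, map_mul, map_pow, MvPolynomial.aeval_X, map_ofNat, par]
  simp only [Fin.isValue, Matrix.cons_val_zero, Matrix.cons_val_one, Matrix.cons_val]
  ring

/-- the monic version of the equation, as a polynomial in the first variable -/
noncomputable def sexticPoly (K : Type*) [Field K] : (MvPolynomial (Fin 2) K)[X] :=
  X ^ 6
    - C (MvPolynomial.C (1 / 16) * ((8 * MvPolynomial.X 0 ^ 2 + 12 * MvPolynomial.X 0 * MvPolynomial.X 1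
        + 3 * MvPolynomial.X 1 ^ 2) * MvPolynomial.X 1)) * X ^ 3
    + C (MvPolynomial.C (1 / 16) *
      (MvPolynomial.X 0 * (MvPolynomial.X 0 + MvPolynomial.X 1) ^ 3 * MvPolynomial.X 1 ^ 2))

theorem sexticPoly_natDegree : (sexticPoly K).natDegree = 6 := by
  unfold sexticPoly
  compute_degree!

theorem sexticPoly_monic : (sexticPoly K).Monic := by
  unfold sexticPoly
  monicity!

theorem finSuccEquiv_sextic (h2 : (2 : K) ≠ 0) :
    MvPolynomial.finSuccEquiv K 2 (sextic K) = C (MvPolynomial.C 16) * sexticPoly K := by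
  have h16 : (16 : K) ≠ 0 := by
    have : (16 : K) = 2 ^ 4 := by norm_num
    rw [this]; exact pow_ne_zero _ h2
  have e0 : MvPolynomial.finSuccEquiv K 2 (MvPolynomial.X 0) = X :=
    MvPolynomial.finSuccEquiv_X_zero
  have e1 : MvPolynomial.finSuccEquiv K 2 (MvPolynomial.X 1) = C (MvPolynomial.X 0) :=
    MvPolynomial.finSuccEquiv_X_succ (j := 0)
  have e2 : MvPolynomial.finSuccEquiv K 2 (MvPolynomial.X 2) = C (MvPolynomial.X 1) :=
    MvPolynomial.finSuccEquiv_X_succ (j := 1)
  have hc : (C (MvPolynomial.C 16) : (MvPolynomial (Fin 2) K)[X]) * C (MvPolynomial.C (1 / 16)) = 1 := by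
    rw [← C_mul, ← MvPolynomial.C_mul, mul_one_div_cancel h16, MvPolynomial.C_1, C_1]
  have h16' : (C (MvPolynomial.C 16) : (MvPolynomial (Fin 2) K)[X]) = 16 := by
    rw [show (16 : K) = ((16 : ℕ) : K) by norm_num, map_natCast, map_natCast]; norm_num
  simp only [sextic, sexticPoly, map_add, map_sub, map_mul, map_pow, map_ofNat, e0, e1, e2]
  have c8 : (C (8 : MvPolynomial (Fin 2) K)) = 8 := map_ofNat _ 8
  have c12 : (C (12 : MvPolynomial (Fin 2) K)) = 12 := map_ofNat _ 12
  have c3 : (C (3 : MvPolynomial (Fin 2) K)) = 3 := map_ofNat _ 3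
  rw [h16'] at hc
  linear_combination (((8 * C (MvPolynomial.X 0) ^ 2 + 12 * C (MvPolynomial.X 0) * C (MvPolynomial.X 1)
        + 3 * C (MvPolynomial.X 1) ^ 2) * C (MvPolynomial.X 1)) * X ^ 3 -
      (C (MvPolynomial.X 0) * (C (MvPolynomial.X 0) + C (MvPolynomial.X 1)) ^ 3 * C (MvPolynomial.X 1) ^ 2)) * hc

theorem aeval_eq_eval₂ {A : Type*} [CommRing A] [Algebra K A] (v : Fin 3 → A)
    (H : MvPolynomial (Fin 3) K) : MvPolynomial.aeval v H =
      (MvPolynomial.finSuccEquiv K 2 H).eval₂
        ((MvPolynomial.aeval ![v 1, v 2] : MvPolynomial (Fin 2) K →ₐ[K] A) :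
          MvPolynomial (Fin 2) K →+* A) (v 0) := by
  have h : ((MvPolynomial.aeval v : MvPolynomial (Fin 3) K →ₐ[K] A) :
      MvPolynomial (Fin 3) K →+* A) = (eval₂RingHom
        ((MvPolynomial.aeval ![v 1, v 2] : MvPolynomial (Fin 2) K →ₐ[K] A) :
          MvPolynomial (Fin 2) K →+* A) (v 0)).comp
        ((MvPolynomial.finSuccEquiv K 2 : MvPolynomial (Fin 3) K ≃ₐ[K] (MvPolynomial (Fin 2) K)[X]) :
          MvPolynomial (Fin 3) K →+* (MvPolynomial (Fin 2) K)[X]) := by
    apply MvPolynomial.ringHom_ext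
    · intro k
      simp [MvPolynomial.finSuccEquiv_apply]
    · intro j
      fin_cases j
      · simp [MvPolynomial.finSuccEquiv_apply]
      · have e1 : MvPolynomial.finSuccEquiv K 2 (MvPolynomial.X 1) = C (MvPolynomial.X 0) :=
          MvPolynomial.finSuccEquiv_X_succ (j := 0)
        simp [e1]
      · have e2 : MvPolynomial.finSuccEquiv K 2 (MvPolynomial.X 2) = C (MvPolynomial.X 1) :=
          MvPolynomial.finSuccEquiv_X_succ (j := 1)
        simp [e2]
  exact congrArg (fun f => f H) h

/-- **Key lemma**: a polynomial vanishing on the curve is divisible by its equation. -/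
theorem sextic_dvd [IsAlgClosed K] (h2 : (2 : K) ≠ 0) {H : MvPolynomial (Fin 3) K}
    (hH : MvPolynomial.aeval (par K) H = 0) : sextic K ∣ H := by
  classical
  have h16 : (16 : K) ≠ 0 := by
    have : (16 : K) = 2 ^ 4 := by norm_num
    rw [this]; exact pow_ne_zero _ h2
  set e := MvPolynomial.finSuccEquiv K 2 with he
  set r := e H %ₘ sexticPoly K with hr
  have hmod : e H = r + sexticPoly K * (e H /ₘ sexticPoly K) :=
    (modByMonic_add_div (e H) (sexticPoly K)).symm
  have hrdeg : r.natDegree < 6 := by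
    have := natDegree_modByMonic_lt (e H) sexticPoly_monic (by
      intro h
      have := sexticPoly_natDegree (K := K)
      rw [h, natDegree_one] at this
      omega)
    rwa [sexticPoly_natDegree] at this
  have hs0 : MvPolynomial.aeval (par K) (e.symm (sexticPoly K)) = 0 := by
    have h1 : e.symm (C (MvPolynomial.C 16) * sexticPoly K) = sextic K := by
      rw [← finSuccEquiv_sextic h2, ← he, AlgEquiv.symm_apply_apply]
    have h3 : e.symm (C (MvPolynomial.C 16)) = MvPolynomial.C 16 := by
      rw [AlgEquiv.symm_apply_eq, he, MvPolynomial.finSuccEquiv_apply]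
      simp
    rw [map_mul, h3] at h1
    have h4 := congrArg (MvPolynomial.aeval (par K)) h1
    rw [aeval_par_sextic, map_mul, MvPolynomial.aeval_C] at h4
    rcases mul_eq_zero.1 h4 with h5 | h5
    · exfalso
      rw [MvPolynomial.algebraMap_eq] at h5
      exact h16 (MvPolynomial.C_eq_zero.1 h5)
    · exact h5
  have hr0 : MvPolynomial.aeval (par K) (e.symm r) = 0 := by
    have h1 : H = e.symm r + e.symm (sexticPoly K) * e.symm (e H /ₘ sexticPoly K) := by
      rw [← map_mul, ← map_add, ← hmod, AlgEquiv.symm_apply_apply]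
    have h3 := congrArg (MvPolynomial.aeval (par K)) h1
    rw [hH, map_add, map_mul, hs0, zero_mul, add_zero] at h3
    exact h3.symm
  suffices h : r = 0 by
    rw [h, zero_add] at hmod
    have h1 : H = e.symm (sexticPoly K) * e.symm (e H /ₘ sexticPoly K) := by
      rw [← map_mul, ← hmod, AlgEquiv.symm_apply_apply]
    have h3 : sextic K = MvPolynomial.C 16 * e.symm (sexticPoly K) := by
      rw [← e.symm_apply_apply (sextic K), he, finSuccEquiv_sextic h2, ← he, map_mul]
      congr 1
      rw [AlgEquiv.symm_apply_eq, he, MvPolynomial.finSuccEquiv_apply]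
      simp
    refine ⟨MvPolynomial.C (1 / 16) * e.symm (e H /ₘ sexticPoly K), ?_⟩
    have h5 : (MvPolynomial.C 16 * MvPolynomial.C (1 / 16) : MvPolynomial (Fin 3) K) = 1 := by
      rw [← MvPolynomial.C_mul, mul_one_div_cancel h16, MvPolynomial.C_1]
    calc H = e.symm (sexticPoly K) * e.symm (e H /ₘ sexticPoly K) := h1
      _ = (MvPolynomial.C 16 * MvPolynomial.C (1 / 16)) *
        (e.symm (sexticPoly K) * e.symm (e H /ₘ sexticPoly K)) := by rw [h5, one_mul]
      _ = _ := by rw [h3]; ring
  -- the remainder vanishes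
  have hcoef : ∀ (i : ℕ) (c : K), c ≠ 0 → MvPolynomial.aeval
      ![algebraMap K (RatFunc K) c * yr K, algebraMap K (RatFunc K) c] (r.coeff i) = 0 := by
    intro i c hc
    obtain ⟨τ, hτ⟩ := IsAlgClosed.exists_pow_nat_eq c (n := 6) (by norm_num)
    set L := RatFunc K
    have hyF : yr K ∈ K⟮yr K⟯ := mem_adjoin_simple_self K (yr K)
    let y' : K⟮yr K⟯ := ⟨yr K, hyF⟩
    let χ : MvPolynomial (Fin 2) K →ₐ[K] K⟮yr K⟯ :=
      MvPolynomial.aeval ![algebraMap K _ c * y', algebraMap K _ c]
    have hχ : ∀ q, algebraMap K⟮yr K⟯ L (χ q) = MvPolynomial.aeval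
      ![algebraMap K L c * yr K, algebraMap K L c] q := by
      intro q
      have : (IsScalarTower.toAlgHom K K⟮yr K⟯ L).comp χ = MvPolynomial.aeval
        ![algebraMap K L c * yr K, algebraMap K L c] := by
        apply MvPolynomial.algHom_ext
        intro j
        fin_cases j
        · simp [χ, y']
          rfl
        · simp [χ]
          rfl
      exact congrArg (fun f => f q) this
    have hz : (r.map (χ : MvPolynomial (Fin 2) K →+* K⟮yr K⟯)) = 0 := by
      apply minpoly_degree h2 hc (lt_of_le_of_lt natDegree_map_le hrdeg)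
      have h1 : aeval (algebraMap K L c * xr K) (r.map (χ : MvPolynomial (Fin 2) K →+* K⟮yr K⟯)) =
          MvPolynomial.aeval (![algebraMap K L c * xr K, algebraMap K L c * yr K, algebraMap K L c])
            (e.symm r) := by
        rw [aeval_eq_eval₂, ← he, AlgEquiv.apply_symm_apply, aeval_def, eval₂_map]
        have hcomp : (algebraMap K⟮yr K⟯ L).comp (χ : MvPolynomial (Fin 2) K →+* K⟮yr K⟯) =
            ((MvPolynomial.aeval ![algebraMap K L c * yr K, algebraMap K L c] :
              MvPolynomial (Fin 2) K →ₐ[K] L) : MvPolynomial (Fin 2) K →+* L) :=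
          RingHom.ext fun q => hχ q
        rw [hcomp]
        rfl
      rw [h1]
      have h3 : MvPolynomial.aeval ![algebraMap K L τ * RatFunc.X, algebraMap K L τ]
          (MvPolynomial.aeval (par K) (e.symm r)) = MvPolynomial.aeval
          (![algebraMap K L c * xr K, algebraMap K L c * yr K, algebraMap K L c]) (e.symm r) := by
        rw [← AlgHom.comp_apply]
        congr 1
        apply MvPolynomial.algHom_ext
        intro j
        have hτ' : algebraMap K L c = algebraMap K L τ ^ 6 := by rw [← hτ, map_pow]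
        rw [AlgHom.comp_apply, MvPolynomial.aeval_X, MvPolynomial.aeval_X, hτ', xr_eq, yr_eq]
        fin_cases j
        · simp [par]; ring
        · simp [par]; ring
        · simp [par]
      rw [← h3, hr0, map_zero]
    have := congrArg (fun p => algebraMap K⟮yr K⟯ L (p.coeff i)) hz
    simp only [coeff_map, coeff_zero, map_zero] at this
    rw [← hχ]
    exact this
  ext1 i
  rw [coeff_zero]
  have hval : ∀ b c : K, c ≠ 0 → MvPolynomial.eval ![b, c] (r.coeff i) = 0 := by
    intro b c hc
    set q : K[X] := MvPolynomial.aeval ![C c * X, C c] (r.coeff i) with hq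
    have h1 : aeval (yr K) q = 0 := by
      rw [← hcoef i c hc, hq, ← AlgHom.comp_apply]
      congr 1
      apply MvPolynomial.algHom_ext
      intro j
      fin_cases j <;> simp
    have h3 : q = 0 := by
      by_contra hne
      exact yr_transcendental h2 ⟨q, hne, h1⟩
    have h5 : aeval (b / c) q = MvPolynomial.eval ![b, c] (r.coeff i) := by
      have h7 : (aeval (b / c) : K[X] →ₐ[K] K).comp
          (MvPolynomial.aeval ![C c * X, C c] : MvPolynomial (Fin 2) K →ₐ[K] K[X]) =
          MvPolynomial.aeval ![b, c] := by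
        apply MvPolynomial.algHom_ext
        intro j
        fin_cases j
        · simp [mul_div_cancel₀ b hc]
        · simp
      rw [hq, ← AlgHom.comp_apply, h7]
      exact congrArg (fun f : MvPolynomial (Fin 2) K →+* K => f (r.coeff i)) (MvPolynomial.coe_aeval_eq_eval _)
    rw [← h5, h3, map_zero]
  have h6 : r.coeff i * MvPolynomial.X 1 = 0 := by
    apply MvPolynomial.funext
    intro v
    rw [map_mul, MvPolynomial.eval_X, map_zero]
    by_cases hv : v 1 = 0
    · rw [hv, mul_zero]
    · have : v = ![v 0, v 1] := by ext j; fin_cases j <;> rfl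
      rw [this, hval _ _ (by simpa using hv), zero_mul]
  rcases mul_eq_zero.1 h6 with h | h
  · exact h
  · exact absurd h (MvPolynomial.X_ne_zero 1)

end mv

end Pool.Agent.V1156.Cub
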