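import Pool.Agent.V1156.Cub.Gen
import Pool.Agent.V1156.Cub.Ker

/-! The sextic curve: irreducibility, and the pencil of cubics which parametrizes it. -/

set_option autoImplicit false

namespace Pool.Agent.V1156.Cub

open MvPolynomial

variable {K : Type*} [Field K]

theorem sextic_hom : (sextic K).IsHomogeneous 6 := by
  unfold sextic
  have hX : ∀ i : Fin 3, (X i : MvPolynomial (Fin 3) K).IsHomogeneous 1 := fun i => isHomogeneous_X K i
  have hn : ∀ n : ℕ, [n.AtLeastTwo] → (OfNat.ofNat n : MvPolynomial (Fin 3) K).IsHomogeneous 0 := by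
    intro n _
    have := isHomogeneous_C (Fin 3) (OfNat.ofNat n : K)
    rwa [map_ofNat] at this
  have t1 : (16 * X 0 ^ 6 : MvPolynomial (Fin 3) K).IsHomogeneous 6 := by
    simpa using (hn 16).mul ((hX 0).pow 6)
  have t2 : (8 * X 1 ^ 2 : MvPolynomial (Fin 3) K).IsHomogeneous 2 := by
    simpa using (hn 8).mul ((hX 1).pow 2)
  have t3 : (12 * X 1 * X 2 : MvPolynomial (Fin 3) K).IsHomogeneous 2 := by
    simpa using ((hn 12).mul (hX 1)).mul (hX 2)
  have t4 : (3 * X 2 ^ 2 : MvPolynomial (Fin 3) K).IsHomogeneous 2 := by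
    simpa using (hn 3).mul ((hX 2).pow 2)
  have t5 : ((8 * X 1 ^ 2 + 12 * X 1 * X 2 + 3 * X 2 ^ 2) * X 2 * X 0 ^ 3 :
      MvPolynomial (Fin 3) K).IsHomogeneous 6 := by
    simpa using (((t2.add t3).add t4).mul (hX 2)).mul ((hX 0).pow 3)
  have t6 : (X 1 * (X 1 + X 2) ^ 3 * X 2 ^ 2 : MvPolynomial (Fin 3) K).IsHomogeneous 6 := by
    simpa using ((hX 1).mul (((hX 1).add (hX 2)).pow 3)).mul ((hX 2).pow 2)
  exact (t1.sub t5).add t6

theorem eval_sextic : eval ![0, -1, 2] (sextic K) = -2 ^ 2 := by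
  simp only [sextic, map_add, map_sub, map_mul, map_pow, eval_X, map_ofNat, Fin.isValue,
    Matrix.cons_val_zero, Matrix.cons_val_one, Matrix.cons_val]
  ring

theorem sextic_ne_zero (h2 : (2 : K) ≠ 0) : sextic K ≠ 0 := by
  intro h
  have h1 := eval_sextic (K := K)
  rw [h, map_zero] at h1
  exact pow_ne_zero 2 h2 (neg_eq_zero.1 h1.symm)

/-- the affine parametrization -/
noncomputable def uh (K : Type*) [Field K] : Fin 3 → Polynomial K := ![xp K, yp K, 1]

theorem eq_zero_of_eval {p : MvPolynomial (Fin 2) K} [Infinite K]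
    (h : ∀ s t : K, t ≠ 0 → eval ![s, t] p = 0) : p = 0 := by
  have h6 : p * X 1 = 0 := by
    apply MvPolynomial.funext
    intro v
    rw [map_mul, MvPolynomial.eval_X, map_zero]
    by_cases hv : v 1 = 0
    · rw [hv, mul_zero]
    · have : v = ![v 0, v 1] := by ext j; fin_cases j <;> rfl
      rw [this, h _ _ (by simpa using hv), zero_mul]
  rcases mul_eq_zero.1 h6 with h | h
  · exact h
  · exact absurd h (MvPolynomial.X_ne_zero 1)

theorem dvd_of_uh [IsAlgClosed K] (h2 : (2 : K) ≠ 0) {H : MvPolynomial (Fin 3) K} {d : ℕ}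
    (hH : H.IsHomogeneous d) (h : aeval (uh K) H = 0) : sextic K ∣ H := by
  have : Infinite K := IsAlgClosed.instInfinite
  apply sextic_dvd h2
  apply eq_zero_of_eval
  intro s t ht
  have h1 : eval ![s, t] (aeval (par K) H) =
      aeval (fun i => t ^ 6 * Polynomial.eval (s / t) (uh K i)) H := by
    have e1 : eval ![s, t] (aeval (par K) H) = aeval ![s, t] (aeval (par K) H) := by
      rw [aeval_eq_eval]
    rw [e1, comp_aeval_apply]
    congr 2
    ext i
    fin_cases i
    · simp [par, uh, xp]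
      field_simp
    · simp [par, uh, yp]
      field_simp
    · simp [par, uh]
  rw [h1, aeval_smul_hom hH]
  have h3 : aeval (fun i => Polynomial.eval (s / t) (uh K i)) H =
      Polynomial.aeval (s / t) (aeval (uh K) H) := by
    rw [comp_aeval_apply]
    simp
  rw [h3, h, map_zero, mul_zero]

theorem sextic_prime [IsAlgClosed K] (h2 : (2 : K) ≠ 0) : Prime (sextic K) := by
  refine ⟨sextic_ne_zero h2, ?_, ?_⟩
  · intro hu
    have := hu.map (aeval (par K))
    rw [aeval_par_sextic] at this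
    exact not_isUnit_zero this
  · intro a b hab
    obtain ⟨c, hc⟩ := hab
    have h1 : aeval (par K) a * aeval (par K) b = 0 := by
      rw [← map_mul, hc, map_mul, aeval_par_sextic, zero_mul]
    rcases mul_eq_zero.1 h1 with h | h
    · exact Or.inl (sextic_dvd h2 h)
    · exact Or.inr (sextic_dvd h2 h)

/-- first cubic of the pencil -/
noncomputable def cA (K : Type*) [Field K] : MvPolynomial (Fin 3) K := X 0 * X 2 ^ 2

/-- second cubic of the pencil -/
noncomputable def cB (K : Type*) [Field K] : MvPolynomial (Fin 3) K :=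
  (2 * X 1 + X 2) * (X 1 + X 2) * X 2 - 8 * X 0 ^ 3

/-- the common factor of the two cubics on the curve -/
noncomputable def fac (K : Type*) [Field K] : MvPolynomial (Fin 2) K :=
  X 1 ^ 14 * (X 0 ^ 3 + X 1 ^ 3)

theorem aeval_par_cA : aeval (par K) (cA K) = X 0 * fac K := by
  simp only [cA, fac, map_mul, map_pow, aeval_X, par]
  simp only [Fin.isValue, Matrix.cons_val_zero, Matrix.cons_val]
  ring

theorem aeval_par_cB : aeval (par K) (cB K) = X 1 * fac K := by
  simp only [cB, fac, map_sub, map_add, map_mul, map_pow, aeval_X, map_ofNat, par]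
  simp only [Fin.isValue, Matrix.cons_val_zero, Matrix.cons_val_one, Matrix.cons_val]
  ring

theorem par_hom (i : Fin 3) : (par K i).IsHomogeneous 6 := by
  have hX : ∀ i : Fin 2, (X i : MvPolynomial (Fin 2) K).IsHomogeneous 1 :=
    fun i => isHomogeneous_X K i
  have hn : ∀ n : ℕ, [n.AtLeastTwo] →
      (OfNat.ofNat n : MvPolynomial (Fin 2) K).IsHomogeneous 0 := by
    intro n _
    have := isHomogeneous_C (Fin 2) (OfNat.ofNat n : K)
    rwa [map_ofNat] at this
  fin_cases i
  · have t1 : (X 0 ^ 4 * X 1 ^ 2 : MvPolynomial (Fin 2) K).IsHomogeneous 6 := by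
      simpa using ((hX 0).pow 4).mul ((hX 1).pow 2)
    have t2 : (X 0 * X 1 ^ 5 : MvPolynomial (Fin 2) K).IsHomogeneous 6 := by
      simpa using (hX 0).mul ((hX 1).pow 5)
    exact t1.add t2
  · have t1 : (2 * X 0 ^ 6 : MvPolynomial (Fin 2) K).IsHomogeneous 6 := by
      simpa using (hn 2).mul ((hX 0).pow 6)
    have t2 : (3 * X 0 ^ 3 * X 1 ^ 3 : MvPolynomial (Fin 2) K).IsHomogeneous 6 := by
      simpa using ((hn 3).mul ((hX 0).pow 3)).mul ((hX 1).pow 3)
    exact t1.add t2
  · simpa [par] using (hX 1).pow 6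

theorem cA_hom : (cA K).IsHomogeneous 3 := by
  have hX : ∀ i : Fin 3, (X i : MvPolynomial (Fin 3) K).IsHomogeneous 1 := fun i => isHomogeneous_X K i
  simpa [cA] using (hX 0).mul ((hX 2).pow 2)

theorem cB_hom : (cB K).IsHomogeneous 3 := by
  have hX : ∀ i : Fin 3, (X i : MvPolynomial (Fin 3) K).IsHomogeneous 1 := fun i => isHomogeneous_X K i
  have hn : ∀ n : ℕ, [n.AtLeastTwo] → (OfNat.ofNat n : MvPolynomial (Fin 3) K).IsHomogeneous 0 := by
    intro n _
    have := isHomogeneous_C (Fin 3) (OfNat.ofNat n : K)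
    rwa [map_ofNat] at this
  have t1 : (2 * X 1 + X 2 : MvPolynomial (Fin 3) K).IsHomogeneous 1 := by
    have := ((hn 2).mul (hX 1))
    exact IsHomogeneous.add (by simpa using this) (hX 2)
  have t2 : ((2 * X 1 + X 2) * (X 1 + X 2) * X 2 : MvPolynomial (Fin 3) K).IsHomogeneous 3 := by
    simpa using (t1.mul ((hX 1).add (hX 2))).mul (hX 2)
  have t3 : (8 * X 0 ^ 3 : MvPolynomial (Fin 3) K).IsHomogeneous 3 := by
    simpa using (hn 8).mul ((hX 0).pow 3)
  exact t2.sub t3

theorem relPrime_cA_cB (h2 : (2 : K) ≠ 0) : IsRelPrime (cA K) (cB K) := by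
  have h0 : IsRelPrime (X 0 : MvPolynomial (Fin 3) K) (cB K) := by
    rw [X_prime.irreducible.isRelPrime_iff_not_dvd]
    rintro ⟨r, hr⟩
    have := congrArg (eval ![0, 0, 1]) hr
    simp [cB] at this
  have h1 : IsRelPrime (X 2 : MvPolynomial (Fin 3) K) (cB K) := by
    rw [X_prime.irreducible.isRelPrime_iff_not_dvd]
    rintro ⟨r, hr⟩
    have := congrArg (eval ![1, 0, 0]) hr
    simp [cB] at this
    apply pow_ne_zero 3 h2
    linear_combination this
  unfold cA
  exact h0.mul_left h1.pow_left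

theorem fac_ne_zero : fac K ≠ 0 := by
  intro h
  have := congrArg (eval ![0, 1]) h
  simp [fac] at this

theorem aeval_uh_sextic : aeval (uh K) (sextic K) = 0 := by
  simp only [sextic, map_add, map_sub, map_mul, map_pow, MvPolynomial.aeval_X, map_ofNat, uh]
  simp only [Fin.isValue, Matrix.cons_val_zero, Matrix.cons_val_one, Matrix.cons_val, xp, yp]
  ring

theorem uh_cA_cB : aeval (uh K) (cA K) = Polynomial.X * aeval (uh K) (cB K) := by
  simp only [cA, cB, map_sub, map_add, map_mul, map_pow, aeval_X, map_ofNat, uh]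
  simp only [Fin.isValue, Matrix.cons_val_zero, Matrix.cons_val_one, Matrix.cons_val, xp, yp]
  ring

theorem uh_cB : aeval (uh K) (cB K) = Polynomial.X ^ 3 + 1 := by
  simp only [cB, map_sub, map_add, map_mul, map_pow, aeval_X, map_ofNat, uh]
  simp only [Fin.isValue, Matrix.cons_val_zero, Matrix.cons_val_one, Matrix.cons_val, xp, yp]
  ring

end Pool.Agent.V1156.Cub
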