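import Mathlib

/-! Non-existence of nonconstant polynomial solutions of the homogeneous equation of a smooth
cubic in the form needed for the plane pencil `x z ^ 2`, `(2 y + z) (y + z) z - 8 x ^ 3`. -/

set_option autoImplicit false

namespace Pool.Agent.V1156.Cub

open Polynomial

variable {K : Type*} [Field K] [IsAlgClosed K]

theorem isSquare_left_of_coprime {p q : K[X]} (h : IsCoprime p q) (hs : IsSquare (p * q)) :
    IsSquare p := by
  classical
  obtain ⟨c, hc⟩ := hs
  have h1 : p * q = c ^ 2 := by rw [hc]; ring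
  obtain ⟨d, hd⟩ := exists_associated_pow_of_mul_eq_pow
    ((gcd_isUnit_iff p q).2 h) h1
  obtain ⟨u, hu⟩ := hd
  obtain ⟨v, hv⟩ := Polynomial.isUnit_iff.1 u.isUnit
  obtain ⟨w, hw⟩ := IsAlgClosed.exists_pow_nat_eq v (n := 2) (by norm_num)
  refine ⟨d * C w, ?_⟩
  rw [← hu, ← hv.2, ← hw, C_pow]
  ring

theorem isSquare_right_of_coprime {p q : K[X]} (h : IsCoprime p q) (hs : IsSquare (p * q)) :
    IsSquare q := isSquare_left_of_coprime h.symm (by rwa [mul_comm])

omit [IsAlgClosed K] in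
theorem natDegree_mul_self' (p : K[X]) : (p * p).natDegree = p.natDegree + p.natDegree := by
  rw [← pow_two, natDegree_pow]; ring

theorem four_squares (h2 : (2 : K) ≠ 0) : ∀ (n : ℕ) (A B : K[X]), IsCoprime A B →
    A.natDegree ≤ n → B.natDegree ≤ n → ∀ (a b : Fin 4 → K),
    (∀ i j, i ≠ j → a i * b j ≠ a j * b i) → (∀ i, IsSquare (C (a i) * A + C (b i) * B)) →
    A.natDegree = 0 ∧ B.natDegree = 0 := by
  intro n
  induction n using Nat.strong_induction_on with
  | _ n ih =>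
  intro A B hAB hA hB a b hab hsq
  rcases Nat.eq_zero_or_pos n with rfl | hn
  · exact ⟨Nat.le_zero.1 hA, Nat.le_zero.1 hB⟩
  choose W hW using hsq
  -- determinant of the first two
  have hD : a 0 * b 1 - a 1 * b 0 ≠ 0 := sub_ne_zero.2 (hab 0 1 (by decide))
  set D := a 0 * b 1 - a 1 * b 0 with hDdef
  -- A and B in terms of the first two
  have eA : A = C (b 1 / D) * (W 0 * W 0) - C (b 0 / D) * (W 1 * W 1) := by
    rw [← hW 0, ← hW 1]
    have : C (b 1 / D) * (C (a 0) * A + C (b 0) * B) - C (b 0 / D) * (C (a 1) * A + C (b 1) * B) =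
        C ((b 1 * a 0 - b 0 * a 1) / D) * A + C ((b 1 * b 0 - b 0 * b 1) / D) * B := by
      simp only [div_eq_mul_inv, C_mul, C_sub]; ring
    rw [this]
    have e1 : (b 1 * a 0 - b 0 * a 1) / D = 1 := by
      rw [div_eq_one_iff_eq hD, hDdef]; ring
    have e2 : (b 1 * b 0 - b 0 * b 1) / D = 0 := by
      rw [mul_comm, sub_self, zero_div]
    rw [e1, e2]; simp
  have eB : B = C (a 0 / D) * (W 1 * W 1) - C (a 1 / D) * (W 0 * W 0) := by
    rw [← hW 0, ← hW 1]
    have : C (a 0 / D) * (C (a 1) * A + C (b 1) * B) - C (a 1 / D) * (C (a 0) * A + C (b 0) * B) =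
        C ((a 0 * a 1 - a 1 * a 0) / D) * A + C ((a 0 * b 1 - a 1 * b 0) / D) * B := by
      simp only [div_eq_mul_inv, C_mul, C_sub]; ring
    rw [this]
    have e1 : (a 0 * b 1 - a 1 * b 0) / D = 1 := by
      rw [div_eq_one_iff_eq hD]
    have e2 : (a 0 * a 1 - a 1 * a 0) / D = 0 := by
      rw [mul_comm, sub_self, zero_div]
    rw [e1, e2]; simp
  have hcop : IsCoprime (W 0) (W 1) := by
    obtain ⟨s, t, hst⟩ := hAB
    refine ⟨(s * C (b 1 / D) - t * C (a 1 / D)) * W 0, (t * C (a 0 / D) - s * C (b 0 / D)) * W 1, ?_⟩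
    rw [← hst]
    conv_rhs => rw [eA, eB]
    ring
  -- the two remaining combinations
  have key : ∀ i : Fin 4, i ≠ 0 → i ≠ 1 → ∃ σ τ : K, σ ≠ 0 ∧ τ ≠ 0 ∧
      σ ^ 2 = (a i * b 1 - a 1 * b i) / D ∧ τ ^ 2 = (a i * b 0 - a 0 * b i) / D ∧
      IsSquare (C σ * W 0 + C τ * W 1) ∧ IsSquare (C σ * W 0 + C (-τ) * W 1) := by
    intro i h0 h1
    obtain ⟨σ, hσ⟩ := IsAlgClosed.exists_pow_nat_eq ((a i * b 1 - a 1 * b i) / D) (n := 2)
      (by norm_num)
    obtain ⟨τ, hτ⟩ := IsAlgClosed.exists_pow_nat_eq ((a i * b 0 - a 0 * b i) / D) (n := 2)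
      (by norm_num)
    have hσ0 : σ ≠ 0 := by
      rintro rfl
      have : (a i * b 1 - a 1 * b i) / D = 0 := by rw [← hσ]; ring
      rw [div_eq_zero_iff] at this
      rcases this with h | h
      · exact hab i 1 h1 (sub_eq_zero.1 h)
      · exact hD h
    have hτ0 : τ ≠ 0 := by
      rintro rfl
      have : (a i * b 0 - a 0 * b i) / D = 0 := by rw [← hτ]; ring
      rw [div_eq_zero_iff] at this
      rcases this with h | h
      · exact hab i 0 h0 (sub_eq_zero.1 h)
      · exact hD h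
    refine ⟨σ, τ, hσ0, hτ0, hσ, hτ, ?_⟩
    have hprod : (C σ * W 0 + C τ * W 1) * (C σ * W 0 + C (-τ) * W 1) = W i * W i := by
      rw [← hW i]
      have e : (C σ * W 0 + C τ * W 1) * (C σ * W 0 + C (-τ) * W 1) =
          C (σ ^ 2) * (W 0 * W 0) - C (τ ^ 2) * (W 1 * W 1) := by
        simp only [C_neg, C_pow]; ring
      rw [e, hσ, hτ, ← hW 0, ← hW 1]
      have : C ((a i * b 1 - a 1 * b i) / D) * (C (a 0) * A + C (b 0) * B) -
          C ((a i * b 0 - a 0 * b i) / D) * (C (a 1) * A + C (b 1) * B) =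
          C (((a i * b 1 - a 1 * b i) * a 0 - (a i * b 0 - a 0 * b i) * a 1) / D) * A +
          C (((a i * b 1 - a 1 * b i) * b 0 - (a i * b 0 - a 0 * b i) * b 1) / D) * B := by
        simp only [div_eq_mul_inv, C_mul, C_sub]; ring
      rw [this]
      have e1 : ((a i * b 1 - a 1 * b i) * a 0 - (a i * b 0 - a 0 * b i) * a 1) / D = a i := by
        rw [div_eq_iff hD, hDdef]; ring
      have e2 : ((a i * b 1 - a 1 * b i) * b 0 - (a i * b 0 - a 0 * b i) * b 1) / D = b i := by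
        rw [div_eq_iff hD, hDdef]; ring
      rw [e1, e2]
    have hc : IsCoprime (C σ * W 0 + C τ * W 1) (C σ * W 0 + C (-τ) * W 1) := by
      obtain ⟨s, t, hst⟩ := hcop
      refine ⟨s * C (1 / (2 * σ)) + t * C (1 / (2 * τ)), s * C (1 / (2 * σ)) - t * C (1 / (2 * τ)), ?_⟩
      have e1 : C (1 / (2 * σ)) * C σ + C (1 / (2 * σ)) * C σ = (1 : K[X]) := by
        rw [← C_mul, ← C_add, ← C_1]
        congr 1
        field_simp
        norm_num
      have e2 : C (1 / (2 * τ)) * C τ + C (1 / (2 * τ)) * C τ = (1 : K[X]) := by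
        rw [← C_mul, ← C_add, ← C_1]
        congr 1
        field_simp
        norm_num
      calc _ = s * (C (1 / (2 * σ)) * C σ + C (1 / (2 * σ)) * C σ) * W 0 +
          t * (C (1 / (2 * τ)) * C τ + C (1 / (2 * τ)) * C τ) * W 1 := by
            simp only [C_neg]; ring
        _ = 1 := by rw [e1, e2, mul_one, mul_one, hst]
    exact ⟨isSquare_left_of_coprime hc ⟨W i, hprod⟩, isSquare_right_of_coprime hc ⟨W i, hprod⟩⟩
  obtain ⟨σ, τ, hσ, hτ, hσ2, hτ2, s1, s2⟩ := key 2 (by decide) (by decide)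
  obtain ⟨σ', τ', hσ', hτ', hσ2', hτ2', s3, s4⟩ := key 3 (by decide) (by decide)
  have hne : σ ^ 2 * τ' ^ 2 ≠ σ' ^ 2 * τ ^ 2 := by
    rw [hσ2, hτ2, hσ2', hτ2']
    intro h
    have h23 := hab 2 3 (by decide)
    apply h23
    have hDD : D * D ≠ 0 := mul_ne_zero hD hD
    have h' : (a 2 * b 1 - a 1 * b 2) * (a 3 * b 0 - a 0 * b 3) =
        (a 3 * b 1 - a 1 * b 3) * (a 2 * b 0 - a 0 * b 2) := by
      field_simp at h
      linear_combination h
    have h'' : (a 2 * b 3 - a 3 * b 2) * D = 0 := by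
      rw [hDdef]; linear_combination -h'
    rcases mul_eq_zero.1 h'' with h3 | h3
    · exact sub_eq_zero.1 h3
    · exact absurd h3 hD
  have hdeg : ∀ i : Fin 4, (W i).natDegree ≤ n / 2 := by
    intro i
    have h1 : (W i * W i).natDegree ≤ n := by
      rw [← hW i]
      refine (natDegree_add_le _ _).trans (max_le ?_ ?_)
      · exact (natDegree_C_mul_le _ _).trans hA
      · exact (natDegree_C_mul_le _ _).trans hB
    rw [natDegree_mul_self'] at h1
    omega
  have hrec := ih (n / 2) (by omega) (W 0) (W 1) hcop (hdeg 0) (hdeg 1)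
    ![σ, σ, σ', σ'] ![τ, -τ, τ', -τ'] ?_ ?_
  · have w0 := hrec.1
    have w1 := hrec.2
    have d0 : (W 0 * W 0).natDegree = 0 := by rw [natDegree_mul_self', w0]
    have d1 : (W 1 * W 1).natDegree = 0 := by rw [natDegree_mul_self', w1]
    constructor
    · apply Nat.le_zero.1
      rw [eA]
      refine (natDegree_sub_le _ _).trans (max_le ?_ ?_)
      · exact (natDegree_C_mul_le _ _).trans d0.le
      · exact (natDegree_C_mul_le _ _).trans d1.le
    · apply Nat.le_zero.1
      rw [eB]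
      refine (natDegree_sub_le _ _).trans (max_le ?_ ?_)
      · exact (natDegree_C_mul_le _ _).trans d1.le
      · exact (natDegree_C_mul_le _ _).trans d0.le
  · have n1 : σ * τ ≠ 0 := mul_ne_zero hσ hτ
    have n2 : σ' * τ' ≠ 0 := mul_ne_zero hσ' hτ'
    have m1 : σ * τ' ≠ σ' * τ := fun h => hne (by linear_combination (σ * τ' + σ' * τ) * h)
    have m2 : σ * τ' ≠ -(σ' * τ) := fun h => hne (by linear_combination (σ * τ' - σ' * τ) * h)
    have q1 : ∀ x : K, x ≠ 0 → x ≠ -x := fun x hx h => by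
      have : 2 * x = 0 := by linear_combination h
      exact (mul_ne_zero h2 hx) this
    intro i j hij
    fin_cases i <;> fin_cases j <;> simp at hij ⊢
    · intro h; exact q1 _ n1 (by first | linear_combination h | linear_combination -h)
    · intro h; exact m1 (by first | linear_combination h | linear_combination -h)
    · intro h; exact m2 (by first | linear_combination h | linear_combination -h)
    · intro h; exact q1 _ n1 (by first | linear_combination h | linear_combination -h)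
    · intro h; exact m2 (by first | linear_combination h | linear_combination -h)
    · intro h; exact m1 (by first | linear_combination h | linear_combination -h)
    · intro h; exact m1 (by first | linear_combination h | linear_combination -h)
    · intro h; exact m2 (by first | linear_combination h | linear_combination -h)
    · intro h; exact q1 _ n2 (by first | linear_combination h | linear_combination -h)
    · intro h; exact m2 (by first | linear_combination h | linear_combination -h)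
    · intro h; exact m1 (by first | linear_combination h | linear_combination -h)
    · intro h; exact q1 _ n2 (by first | linear_combination h | linear_combination -h)
  · intro i
    fin_cases i
    · exact s1
    · exact s2
    · exact s3
    · exact s4


/-- A polynomial parametrization of the cubic curve
`b x z ^ 2 = a ((2 y + z) (y + z) z - 8 x ^ 3)` is projectively constant if the curve is smooth. -/
theorem param_const (h2 : (2 : K) ≠ 0) {a b : K} (ha : a ≠ 0) (hdisc : 32 * b ^ 3 + 27 * a ^ 3 ≠ 0)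
    {g₀ g₁ g₂ : K[X]} (hg : g₂ ≠ 0)
    (h : C b * (g₀ * g₂ ^ 2) = C a * ((2 * g₁ + g₂) * (g₁ + g₂) * g₂ - 8 * g₀ ^ 3)) :
    ∃ (ρ : K[X]) (φ₀ φ₁ φ₂ : K), g₀ = ρ * C φ₀ ∧ g₁ = ρ * C φ₁ ∧ g₂ = ρ * C φ₂ := by
  classical
  -- the roots
  set c : K := b / a with hc
  have hp1 : (X ^ 3 + C (2 * c) * X + 1 : K[X]).degree ≠ 0 := by
    have : (X ^ 3 + C (2 * c) * X + 1 : K[X]).degree = 3 := by compute_degree!
    rw [this]; decide
  obtain ⟨e₁, he₁⟩ := IsAlgClosed.exists_root _ hp1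
  have he₁' : e₁ ^ 3 + 2 * c * e₁ + 1 = 0 := by simpa [IsRoot] using he₁
  have hp2 : (X ^ 2 + C e₁ * X + C (2 * c + e₁ ^ 2) : K[X]).degree ≠ 0 := by
    have : (X ^ 2 + C e₁ * X + C (2 * c + e₁ ^ 2) : K[X]).degree = 2 := by compute_degree!
    rw [this]; decide
  obtain ⟨e₂, he₂⟩ := IsAlgClosed.exists_root _ hp2
  have he₂' : e₂ ^ 2 + e₁ * e₂ + (2 * c + e₁ ^ 2) = 0 := by simpa [IsRoot] using he₂
  obtain ⟨e₃, he₃⟩ : ∃ e₃ : K, e₃ = -e₁ - e₂ := ⟨_, rfl⟩
  have hcc : 2 * c = -(e₂ ^ 2 + e₁ * e₂ + e₁ ^ 2) := by linear_combination he₂'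
  have h1c : (1 : K) = e₁ * e₂ * (e₁ + e₂) := by linear_combination he₁' - e₁ * he₂'
  have hdd : (e₁ - e₂) ^ 2 * (e₁ - e₃) ^ 2 * (e₂ - e₃) ^ 2 * a ^ 3 = -(32 * b ^ 3 + 27 * a ^ 3) := by
    have hb : b = c * a := by rw [hc]; field_simp
    have e : (e₁ - e₂) ^ 2 * (e₁ - e₃) ^ 2 * (e₂ - e₃) ^ 2 =
        -(4 * (2 * c) ^ 3 + 27 * (e₁ * e₂ * (e₁ + e₂)) ^ 2) := by
      rw [hcc, he₃]; ring
    rw [← h1c] at e
    rw [e, hb]; ring
  have hne : (e₁ - e₂) ^ 2 * (e₁ - e₃) ^ 2 * (e₂ - e₃) ^ 2 * a ^ 3 ≠ 0 := by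
    rw [hdd]; exact neg_ne_zero.2 hdisc
  have n12 : e₁ ≠ e₂ := by rintro rfl; simp at hne
  have n13 : e₁ ≠ e₃ := by intro h; rw [h] at hne; simp at hne
  have n23 : e₂ ≠ e₃ := by intro h; rw [h] at hne; simp at hne
  have h4 : (4 : K) ≠ 0 := by
    have : (4 : K) = 2 * 2 := by norm_num
    rw [this]; exact mul_ne_zero h2 h2
  -- the factored equation
  set G : K[X] := C 4 * g₀ with hG
  set H : K[X] := C 4 * g₁ + C 3 * g₂ with hH
  have hca : C a * C c = (C b : K[X]) := by
    rw [← C_mul, hc]; congr 1; field_simp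
  have hCa : (C a : K[X]) ≠ 0 := C_ne_zero.2 ha
  have heq0 : H ^ 2 * g₂ = G ^ 3 + C (2 * c) * G * g₂ ^ 2 + g₂ ^ 3 := by
    apply mul_left_cancel₀ hCa
    have e4 : (C 4 : K[X]) = 4 := rfl
    have e3 : (C 3 : K[X]) = 3 := rfl
    have e2 : (C 2 : K[X]) = 2 := rfl
    rw [hG, hH, C_mul, e4, e3, e2]
    linear_combination (-8) * h + 8 * g₀ * g₂ ^ 2 * (-hca)
  have hcC : (C (2 * c) : K[X]) = -(C e₂ ^ 2 + C e₁ * C e₂ + C e₁ ^ 2) := by
    rw [hcc]; simp [C_mul, C_pow, C_add, C_neg]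
  have h1C : (1 : K[X]) = C e₁ * C e₂ * (C e₁ + C e₂) := by
    rw [← C_1, h1c]; simp [C_mul, C_add]
  have he3C : (C e₃ : K[X]) = - C e₁ - C e₂ := by rw [he₃]; simp
  have heq : H ^ 2 * g₂ = (G - C e₁ * g₂) * (G - C e₂ * g₂) * (G - C e₃ * g₂) := by
    rw [heq0, he3C, hcC]
    linear_combination g₂ ^ 3 * h1C
  obtain ⟨A, B, hA, hB, hAB⟩ := extract_gcd G g₂
  set d := gcd G g₂ with hd
  have hcop : IsCoprime A B := (gcd_isUnit_iff A B).1 hAB
  have hd0 : d ≠ 0 := by rintro h0; apply hg; rw [hB, h0, zero_mul]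
  have hB0 : B ≠ 0 := by rintro h0; apply hg; rw [hB, h0, mul_zero]
  have heq2 : H ^ 2 * B = d ^ 2 * ((A - C e₁ * B) * ((A - C e₂ * B) * (A - C e₃ * B))) := by
    apply mul_left_cancel₀ hd0
    have := heq
    rw [hA, hB] at this
    linear_combination this
  have hdvd : d ∣ H * B := by
    have : d ^ 2 ∣ (H * B) ^ 2 := ⟨B * ((A - C e₁ * B) * ((A - C e₂ * B) * (A - C e₃ * B))), by
      linear_combination B * heq2⟩
    exact (UniqueFactorizationMonoid.pow_dvd_pow_iff_dvd two_ne_zero).1 this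
  obtain ⟨k, hk⟩ := hdvd
  have hsq : B * ((A - C e₁ * B) * ((A - C e₂ * B) * (A - C e₃ * B))) = k * k := by
    apply mul_left_cancel₀ (pow_ne_zero 2 hd0)
    have : (H * B) ^ 2 = (d * k) ^ 2 := by rw [hk]
    linear_combination this - B * heq2
  have cB : ∀ e : K, IsCoprime B (A - C e * B) := by
    intro e
    obtain ⟨s, t, hst⟩ := hcop
    exact ⟨t + s * C e, s, by linear_combination hst⟩
  have cc : ∀ e e' : K, e ≠ e' → IsCoprime (A - C e * B) (A - C e' * B) := by
    intro e e' hee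
    obtain ⟨s, t, hst⟩ := hcop
    have hinv : C (1 / (e - e')) * (C e - C e') = (1 : K[X]) := by
      rw [← C_sub, ← C_mul, ← C_1]; congr 1
      rw [one_div, inv_mul_cancel₀ (sub_ne_zero.2 hee)]
    refine ⟨- C (1 / (e - e')) * (s * C e' + t), C (1 / (e - e')) * (s * C e + t), ?_⟩
    linear_combination (s * A + t * B) * hinv + hst
  have sB : IsSquare B := isSquare_left_of_coprime
    (((cB e₁).mul_right ((cB e₂).mul_right (cB e₃)))) ⟨k, hsq⟩
  have sR : IsSquare ((A - C e₁ * B) * ((A - C e₂ * B) * (A - C e₃ * B))) :=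
    isSquare_right_of_coprime (((cB e₁).mul_right ((cB e₂).mul_right (cB e₃)))) ⟨k, hsq⟩
  have s1 : IsSquare (A - C e₁ * B) :=
    isSquare_left_of_coprime ((cc _ _ n12).mul_right (cc _ _ n13)) sR
  have sR' : IsSquare ((A - C e₂ * B) * (A - C e₃ * B)) :=
    isSquare_right_of_coprime ((cc _ _ n12).mul_right (cc _ _ n13)) sR
  have s2 : IsSquare (A - C e₂ * B) := isSquare_left_of_coprime (cc _ _ n23) sR'
  have s3 : IsSquare (A - C e₃ * B) := isSquare_right_of_coprime (cc _ _ n23) sR'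
  obtain ⟨dA, dB⟩ := four_squares h2 (max A.natDegree B.natDegree) A B hcop (le_max_left _ _)
    (le_max_right _ _) ![0, 1, 1, 1] ![1, -e₁, -e₂, -e₃] (by
      intro i j hij
      fin_cases i <;> fin_cases j <;> simp at hij ⊢ <;>
        first
          | exact n12 | exact n12.symm | exact n13 | exact n13.symm | exact n23 | exact n23.symm)
    (by
      intro i
      fin_cases i
      · simpa using sB
      · simpa [sub_eq_add_neg] using s1
      · simpa [sub_eq_add_neg] using s2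
      · simpa [sub_eq_add_neg] using s3)
  obtain ⟨α, hα⟩ := natDegree_eq_zero.1 dA
  obtain ⟨β, hβ⟩ := natDegree_eq_zero.1 dB
  have hβ0 : β ≠ 0 := by rintro rfl; apply hB0; rw [← hβ, C_0]
  obtain ⟨κ, hκ⟩ := IsAlgClosed.exists_pow_nat_eq
    (((α - e₁ * β) * ((α - e₂ * β) * (α - e₃ * β))) / β) (n := 2) (by norm_num)
  have hCβ : (C β : K[X]) ≠ 0 := C_ne_zero.2 hβ0
  have hH2 : H ^ 2 = d ^ 2 * C (κ ^ 2) := by
    apply mul_left_cancel₀ hCβ
    rw [hκ]
    have e : C β * (d ^ 2 * C ((α - e₁ * β) * ((α - e₂ * β) * (α - e₃ * β)) / β)) =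
        d ^ 2 * C ((α - e₁ * β) * ((α - e₂ * β) * (α - e₃ * β))) := by
      rw [mul_comm, mul_assoc, ← C_mul]
      congr 2
      field_simp
    rw [e]
    have := heq2
    rw [← hα, ← hβ] at this
    rw [mul_comm, this]
    simp [C_mul, C_sub]
  obtain ⟨κ', hκ'⟩ : ∃ κ' : K, H = d * C κ' := by
    have : (H - d * C κ) * (H + d * C κ) = 0 := by
      rw [C_pow] at hH2
      linear_combination hH2
    rcases mul_eq_zero.1 this with h | h
    · exact ⟨κ, sub_eq_zero.1 h⟩
    · exact ⟨-κ, by rw [C_neg]; linear_combination h⟩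
  have hC4 : C (1 / 4) * (C 4 : K[X]) = 1 := by
    rw [← C_mul, ← C_1]; congr 1; field_simp
  refine ⟨d, α / 4, (κ' - 3 * β) / 4, β, ?_, ?_, ?_⟩
  · have : (C (α / 4) : K[X]) = C (1 / 4) * C α := by rw [← C_mul]; congr 1; ring
    rw [this, hα]
    calc g₀ = (C (1 / 4) * C 4) * g₀ := by rw [hC4, one_mul]
      _ = C (1 / 4) * G := by rw [hG]; ring
      _ = _ := by rw [hA]; ring
  · have : (C ((κ' - 3 * β) / 4) : K[X]) = C (1 / 4) * (C κ' - C 3 * C β) := by
      rw [← C_mul, ← C_sub, ← C_mul]; congr 1; ring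
    rw [this, hβ]
    calc g₁ = (C (1 / 4) * C 4) * g₁ := by rw [hC4, one_mul]
      _ = C (1 / 4) * (H - C 3 * g₂) := by rw [hH]; ring
      _ = _ := by rw [hκ', hB]; ring
  · rw [hβ, hB]

end Pool.Agent.V1156.Cub
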