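import Mathlib

/-! General facts on forms used for the sextic curve. -/

set_option autoImplicit false

namespace Pool.Agent.V1156.Cub

open MvPolynomial

theorem aeval_smul_hom {σ K A : Type*} [Field K] [CommRing A] [Algebra K A]
    {H : MvPolynomial σ K} {d : ℕ} (hH : H.IsHomogeneous d) (c : A) (v : σ → A) :
    aeval (fun i => c * v i) H = c ^ d * aeval v H := by
  classical
  rw [aeval_def, aeval_def, eval₂_eq, eval₂_eq, Finset.mul_sum]
  apply Finset.sum_congr rfl
  intro s hs
  have h1 : (∏ i ∈ s.support, (c * v i) ^ s i) = c ^ d * ∏ i ∈ s.support, v i ^ s i := by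
    simp_rw [mul_pow]
    rw [Finset.prod_mul_distrib, Finset.prod_pow_eq_pow_sum]
    congr 2
    exact (hH.degree_eq_sum_deg_support hs).symm
  rw [h1]
  ring

theorem dvd_const {σ K : Type*} [Field K] {p q : MvPolynomial σ K} {d : ℕ}
    (hp : p.IsHomogeneous d) (hq : q.IsHomogeneous d) (h : p ∣ q) : ∃ c : K, q = C c * p := by
  by_cases hq0 : q = 0
  · exact ⟨0, by rw [hq0]; simp⟩
  obtain ⟨r, hr⟩ := h
  have hp0 : p ≠ 0 := fun h => hq0 (by rw [hr, h, zero_mul])
  have hr0 : r ≠ 0 := fun h => hq0 (by rw [hr, h, mul_zero])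
  have h1 := totalDegree_mul_of_isDomain hp0 hr0
  rw [← hr, hq.totalDegree hq0, hp.totalDegree hp0] at h1
  have h2 : r.totalDegree = 0 := by omega
  rw [totalDegree_eq_zero_iff_eq_C] at h2
  exact ⟨_, by rw [hr, mul_comm, ← h2]⟩

theorem eq_zero_of_dvd {σ K : Type*} [Field K] {p q : MvPolynomial σ K} {d e : ℕ}
    (hp : p.IsHomogeneous d) (hp0 : p ≠ 0) (hq : q.IsHomogeneous e) (hde : e < d) (h : p ∣ q) :
    q = 0 := by
  by_contra hq0
  obtain ⟨r, hr⟩ := h
  have hr0 : r ≠ 0 := fun h => hq0 (by rw [hr, h, mul_zero])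
  have h1 := totalDegree_mul_of_isDomain hp0 hr0
  rw [← hr, hq.totalDegree hq0, hp.totalDegree hp0] at h1
  omega

theorem X_irreducible {σ K : Type*} [Field K] (i : σ) : Irreducible (X i : MvPolynomial σ K) :=
  X_prime.irreducible

theorem dvd_of_vanish {K : Type*} [Field K] [IsAlgClosed K] {E H : MvPolynomial (Fin 3) K}
    (hE : Irreducible E)
    (h : ∀ y : Fin 3 → K, y ≠ 0 → eval y E = 0 → eval y H = 0) : E ∣ H := by
  classical
  have hp : Prime E := hE.prime
  have hi : ∀ i, E ∣ H * X i := by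
    intro i
    have hP : (Ideal.span {E} : Ideal (MvPolynomial (Fin 3) K)).IsPrime :=
      (Ideal.span_singleton_prime hp.ne_zero).2 hp
    have : H * X i ∈ vanishingIdeal K (zeroLocus K (Ideal.span {E})) := by
      intro y hy
      have h1 : eval y E = 0 := by
        have := hy E (Ideal.mem_span_singleton_self E)
        simpa [aeval_def] using this
      have h2 : aeval y (H * X i) = eval y H * y i := by
        rw [map_mul, aeval_X, aeval_eq_eval]
      rw [h2]
      by_cases hy0 : y = 0
      · simp [hy0]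
      · rw [h y hy0 h1, zero_mul]
    rw [IsPrime.vanishingIdeal_zeroLocus] at this
    exact Ideal.mem_span_singleton.1 this
  by_contra hne
  have h0 := (hp.dvd_or_dvd (hi 0)).resolve_left hne
  have h1 := (hp.dvd_or_dvd (hi 1)).resolve_left hne
  have a0 : Associated E (X 0) := (hE.dvd_irreducible_iff_associated (X_irreducible 0)).1 h0
  have h2 : (X 0 : MvPolynomial (Fin 3) K) ∣ X 1 := a0.symm.dvd.trans h1
  rw [X_dvd_X] at h2
  simp at h2

end Pool.Agent.V1156.Cub
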