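import Pool.Agent.V1156.Cub.Curve
import Pool.Agent.V1156.Cub.Ell

/-! No Cremona transformation given by cubics contains the pencil spanned by `cA` and `cB`. -/

set_option autoImplicit false

namespace Pool.Agent.V1156.Cub

open MvPolynomial

variable {K : Type*} [Field K]

theorem no_cremona [IsAlgClosed K] (h2 : (2 : K) ≠ 0) {F G : Fin 3 → MvPolynomial (Fin 3) K}
    (hF : ∀ i, (F i).IsHomogeneous 3)
    {Q : MvPolynomial (Fin 3) K} (hQ0 : Q ≠ 0) (hQ : ∀ i, aeval G (F i) = Q * X i)
    {M₀ M₁ : Fin 3 → K} (hM₀ : cA K = ∑ i, C (M₀ i) * F i) (hM₁ : cB K = ∑ i, C (M₁ i) * F i) :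
    False := by
  have : Infinite K := IsAlgClosed.instInfinite
  set m₀ : MvPolynomial (Fin 3) K := ∑ i, C (M₀ i) * X i with hm₀
  set m₁ : MvPolynomial (Fin 3) K := ∑ i, C (M₁ i) * X i with hm₁
  have hc₀ : aeval F m₀ = cA K := by
    rw [hm₀, hM₀, map_sum]
    simp [algebraMap_eq]
  have hc₁ : aeval F m₁ = cB K := by
    rw [hm₁, hM₁, map_sum]
    simp [algebraMap_eq]
  have hm0 : m₀ ≠ 0 := by
    intro h
    rw [h, map_zero] at hc₀
    have := congrArg (eval ![1, 0, 1]) hc₀
    simp [cA] at this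
  have hdisc : 32 * m₁ ^ 3 + 27 * m₀ ^ 3 ≠ 0 := by
    intro h
    have h1 := congrArg (aeval F) h
    simp only [map_add, map_mul, map_pow, map_ofNat, hc₀, hc₁, map_zero] at h1
    have h3 := congrArg (eval ![0, 0, 1]) h1
    simp [cA, cB] at h3
    apply pow_ne_zero 5 h2
    linear_combination h3
  obtain ⟨v, hv⟩ : ∃ v, eval v (Q * m₀ * (32 * m₁ ^ 3 + 27 * m₀ ^ 3)) ≠ 0 := by
    by_contra hne
    push Not at hne
    have : Q * m₀ * (32 * m₁ ^ 3 + 27 * m₀ ^ 3) = 0 := by
      apply MvPolynomial.funext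
      intro v
      rw [hne v, map_zero]
    exact mul_ne_zero (mul_ne_zero hQ0 hm0) hdisc this
  rw [map_mul, map_mul] at hv
  have hvQ : eval v Q ≠ 0 := left_ne_zero_of_mul (left_ne_zero_of_mul hv)
  have hva : eval v m₀ ≠ 0 := right_ne_zero_of_mul (left_ne_zero_of_mul hv)
  have hvd : 32 * (eval v m₁) ^ 3 + 27 * (eval v m₀) ^ 3 ≠ 0 := by
    have := right_ne_zero_of_mul hv
    simpa using this
  set a := eval v m₀ with ha
  set b := eval v m₁ with hb
  have hea : ∑ i, M₀ i * v i = a := by rw [ha, hm₀]; simp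
  have heb : ∑ i, M₁ i * v i = b := by rw [hb, hm₁]; simp
  -- a vector in the kernel of both linear forms
  obtain ⟨r, hr0, hr₀, hr₁⟩ : ∃ r : Fin 3 → K, r ≠ 0 ∧ ∑ i, M₀ i * r i = 0 ∧ ∑ i, M₁ i * r i = 0 := by
    let f : (Fin 3 → K) →ₗ[K] (Fin 2 → K) := Matrix.mulVecLin (Matrix.of ![M₀, M₁])
    have hker : LinearMap.ker f ≠ ⊥ := by
      apply LinearMap.ker_ne_bot_of_finrank_lt
      simp
    obtain ⟨r, hr, hr0⟩ := Submodule.exists_mem_ne_zero_of_ne_bot hker
    rw [LinearMap.mem_ker] at hr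
    refine ⟨r, hr0, ?_, ?_⟩
    · have := congrFun hr 0
      simpa [f, Matrix.mulVec, dotProduct] using this
    · have := congrFun hr 1
      simpa [f, Matrix.mulVec, dotProduct] using this
  let z : Fin 3 → Polynomial K := fun i => Polynomial.C (v i) + Polynomial.C (r i) * Polynomial.X
  let g : Fin 3 → Polynomial K := fun i => aeval z (G i)
  set q := aeval z Q with hq
  have hFg : ∀ i, aeval g (F i) = q * z i := by
    intro i
    have := congrArg (aeval z) (hQ i)
    rw [comp_aeval_apply, map_mul, aeval_X] at this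
    exact this
  have hq0 : Polynomial.eval 0 q ≠ 0 := by
    have e1 : Polynomial.eval 0 q = Polynomial.aeval (0 : K) (aeval z Q) := by
      rw [hq, Polynomial.coe_aeval_eq_eval]
    rw [e1, comp_aeval_apply]
    have e2 : (fun i => Polynomial.aeval (0 : K) (z i)) = v := by
      ext i
      simp [z]
    rw [e2]
    simpa [aeval_eq_eval] using hvQ
  have hqne : q ≠ 0 := by
    intro h
    rw [h] at hq0
    simp at hq0
  have hz₀ : ∑ i, Polynomial.C (M₀ i) * z i = Polynomial.C a := by
    have e1 : ∑ i, Polynomial.C (M₀ i) * z i =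
        Polynomial.C (∑ i, M₀ i * v i) + Polynomial.C (∑ i, M₀ i * r i) * Polynomial.X := by
      simp only [Fin.sum_univ_three, map_add, map_mul, z]
      ring
    rw [e1, hea, hr₀]
    simp
  have hz₁ : ∑ i, Polynomial.C (M₁ i) * z i = Polynomial.C b := by
    have e1 : ∑ i, Polynomial.C (M₁ i) * z i =
        Polynomial.C (∑ i, M₁ i * v i) + Polynomial.C (∑ i, M₁ i * r i) * Polynomial.X := by
      simp only [Fin.sum_univ_three, map_add, map_mul, z]
      ring
    rw [e1, heb, hr₁]
    simp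
  have hA : aeval g (cA K) = q * Polynomial.C a := by
    rw [hM₀, map_sum, ← hz₀, Finset.mul_sum]
    apply Finset.sum_congr rfl
    intro i _
    rw [map_mul, hFg, aeval_C, Polynomial.algebraMap_eq]
    ring
  have hB : aeval g (cB K) = q * Polynomial.C b := by
    rw [hM₁, map_sum, ← hz₁, Finset.mul_sum]
    apply Finset.sum_congr rfl
    intro i _
    rw [map_mul, hFg, aeval_C, Polynomial.algebraMap_eq]
    ring
  have hA' : g 0 * g 2 ^ 2 = q * Polynomial.C a := by
    rw [← hA]; simp [cA]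
  have hB' : (2 * g 1 + g 2) * (g 1 + g 2) * g 2 - 8 * g 0 ^ 3 = q * Polynomial.C b := by
    rw [← hB]; simp [cB]
  have hCa : (Polynomial.C a : Polynomial K) ≠ 0 := Polynomial.C_ne_zero.2 hva
  have hg2 : g 2 ≠ 0 := by
    intro h
    rw [h] at hA'
    have : q * Polynomial.C a = 0 := by rw [← hA']; ring
    exact mul_ne_zero hqne hCa this
  obtain ⟨ρ, φ₀, φ₁, φ₂, e0, e1, e2⟩ := param_const h2 hva hvd hg2
    (g₀ := g 0) (g₁ := g 1) (g₂ := g 2) (by rw [hA', hB']; ring)
  let φ : Fin 3 → K := ![φ₀, φ₁, φ₂]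
  let κ : Fin 3 → K := fun i => eval φ (F i)
  have hgφ : g = fun i => ρ * Polynomial.C (φ i) := by
    ext1 i
    fin_cases i
    · simpa [φ] using e0
    · simpa [φ] using e1
    · simpa [φ] using e2
  have hFφ : ∀ i, ρ ^ 3 * Polynomial.C (κ i) = q * z i := by
    intro i
    rw [← hFg, hgφ, aeval_smul_hom (hF i)]
    congr 1
    have : Polynomial.C (κ i) = (Algebra.ofId K (Polynomial K)) (aeval φ (F i)) := by
      rw [aeval_eq_eval]; rfl
    rw [this, comp_aeval_apply]
    rfl
  have hκz : ∀ i j, Polynomial.C (κ j) * z i = Polynomial.C (κ i) * z j := by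
    intro i j
    apply mul_left_cancel₀ hqne
    linear_combination Polynomial.C (κ i) * hFφ j - Polynomial.C (κ j) * hFφ i
  have hκv : ∀ i j, κ j * v i = κ i * v j := by
    intro i j
    have := congrArg (fun p => Polynomial.coeff p 0) (hκz i j)
    simpa [z] using this
  have hκr : ∀ i j, κ j * r i = κ i * r j := by
    intro i j
    have := congrArg (fun p => Polynomial.coeff p 1) (hκz i j)
    simpa [z] using this
  -- contradiction
  obtain ⟨j, hj⟩ : ∃ j, r j ≠ 0 := by
    by_contra hne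
    push Not at hne
    exact hr0 (funext hne)
  have hk₀ : ∑ i, M₀ i * κ i = 0 := by
    apply mul_right_cancel₀ hj
    rw [Finset.sum_mul, zero_mul]
    have : ∑ i, M₀ i * κ i * r j = κ j * ∑ i, M₀ i * r i := by
      rw [Finset.mul_sum]
      apply Finset.sum_congr rfl
      intro i _
      linear_combination - M₀ i * hκr i j
    rw [this, hr₀, mul_zero]
  have hk : κ j ≠ 0 := by
    intro h
    have h1 : ∀ i, κ i = 0 := by
      intro i
      apply mul_right_cancel₀ hj
      rw [zero_mul, ← hκr i j, h, zero_mul]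
    have h3 := hFφ j
    rw [h1 j, map_zero, mul_zero] at h3
    have h4 := (mul_eq_zero.1 h3.symm).resolve_left hqne
    have := congrArg (fun p => Polynomial.coeff p 1) h4
    simp [z] at this
    exact hj this
  apply hva
  rw [← hea]
  apply mul_left_cancel₀ hk
  rw [mul_zero, Finset.mul_sum]
  have : ∑ i, κ j * (M₀ i * v i) = v j * ∑ i, M₀ i * κ i := by
    rw [Finset.mul_sum]
    apply Finset.sum_congr rfl
    intro i _
    linear_combination M₀ i * hκv i j
  rw [this, hk₀, mul_zero]

end Pool.Agent.V1156.Cub
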